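import Mathlib

set_option autoImplicit false

/-!
Identities in alternative rings: the Kleinfeld function, the nuclear element `[[x,y]^2, x]`
and the nuclear ideal `U`.
-/

namespace Pool.Agent.H212Z.Alt

variable {A : Type*} [NonUnitalNonAssocRing A]

def IsAlt (A : Type*) [NonUnitalNonAssocRing A] : Prop :=
  ∀ x y : A, (x * x) * y = x * (x * y) ∧ (y * x) * x = y * (x * x)

def asc (x y z : A) : A := (x * y) * z - x * (y * z)

def kf (w x y z : A) : A := asc (w * x) y z - x * asc w y z - asc x y z * w

lemma asc_l (h : IsAlt A) (x y : A) : asc x x y = 0 := by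
  simp [asc, (h x y).1]

lemma asc_r (h : IsAlt A) (x y : A) : asc y x x = 0 := by
  simp [asc, (h x y).2]

lemma s12 (h : IsAlt A) (x y z : A) : asc x y z = - asc y x z := by
  have h1 := asc_l h (x + y) z
  have h2 := asc_l h x z
  have h3 := asc_l h y z
  have : asc x y z + asc y x z = asc (x + y) (x + y) z - asc x x z - asc y y z := by
    simp only [asc, mul_add, add_mul]; abel
  rw [h1, h2, h3] at this
  exact eq_neg_of_add_eq_zero_left (by simpa using this)

lemma s23 (h : IsAlt A) (x y z : A) : asc x y z = - asc x z y := by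
  have h1 := asc_r h (y + z) x
  have h2 := asc_r h y x
  have h3 := asc_r h z x
  have : asc x y z + asc x z y = asc x (y + z) (y + z) - asc x y y - asc x z z := by
    simp only [asc, mul_add, add_mul]; abel
  rw [h1, h2, h3] at this
  exact eq_neg_of_add_eq_zero_left (by simpa using this)

lemma cyc (h : IsAlt A) (x y z : A) : asc x y z = asc y z x := by
  rw [s12 h x y z, s23 h y x z, neg_neg]

lemma cyc' (h : IsAlt A) (x y z : A) : asc x y z = asc z x y := by
  rw [cyc h z x y]

lemma s13 (h : IsAlt A) (x y z : A) : asc x y z = - asc z y x := by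
  rw [cyc h x y z, s12 h y z x]

lemma asc_f (h : IsAlt A) (x y : A) : asc x y x = 0 := by
  rw [cyc h, asc_r h]

lemma teich (w x y z : A) :
    asc (w * x) y z - asc w (x * y) z + asc w x (y * z) = w * asc x y z + asc w x y * z := by
  simp only [asc, mul_sub, sub_mul]; abel

lemma asc_sub1 (a b y z : A) : asc (a - b) y z = asc a y z - asc b y z := by
  simp only [asc, sub_mul]; abel

lemma kf_34 (h : IsAlt A) (w x y z : A) : kf w x y z = - kf w x z y := by
  simp only [kf]
  rw [s23 h (w * x) y z, s23 h w y z, s23 h x y z]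
  simp only [mul_neg, neg_mul]; abel

lemma kf_F (h : IsAlt A) (w x y z : A) :
    kf w x y z - kf x y z w + kf y z w x =
      (w * asc x y z - asc x y z * w) - (x * asc y z w - asc y z w * x)
        + (y * asc z w x - asc z w x * y) - (z * asc w x y - asc w x y * z) := by
  have t := teich w x y z
  rw [cyc h w (x * y) z, cyc' h w x (y * z)] at t
  simp only [kf]
  rw [cyc h w y z, cyc h x z w, cyc h y w x]
  have e : asc (w * x) y z = asc (x * y) z w - asc (y * z) w x + (w * asc x y z + asc w x y * z) := by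
    rw [← t]; abel
  rw [e]; abel

lemma kf_cyc (h : IsAlt A) (w x y z : A) : kf z w x y = - kf w x y z := by
  have h1 := kf_F h w x y z
  have h2 := kf_F h x y z w
  have : kf z w x y + kf w x y z =
      (kf w x y z - kf x y z w + kf y z w x) + (kf x y z w - kf y z w x + kf z w x y) := by abel
  rw [h1, h2] at this
  exact eq_neg_of_add_eq_zero_left (by rw [this]; abel)

lemma kf_pair (h : IsAlt A) (w x y z : A) : kf w x y z = kf y z w x := by
  rw [kf_cyc h z w x y, kf_cyc h w x y z, neg_neg]

lemma kf_12 (h : IsAlt A) (w x y z : A) : kf w x y z = - kf x w y z := by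
  rw [kf_pair h w x y z, kf_34 h y z w x, kf_pair h x w y z]

lemma kf_23 (h : IsAlt A) (w x y z : A) : kf w x y z = - kf w y x z := by
  have h1 := kf_cyc h w x y z
  have h2 := kf_cyc h w y x z
  have h3 := kf_34 h z w x y
  rw [h1, h2] at h3
  rw [← neg_neg (kf w x y z), h3, neg_neg]

lemma kf_13 (h : IsAlt A) (w x y z : A) : kf w x y z = - kf y x w z := by
  rw [kf_12 h w x y z, kf_23 h x w y z, kf_12 h x y w z]; simp

lemma kf_14 (h : IsAlt A) (w x y z : A) : kf w x y z = - kf z x y w := by
  rw [kf_34 h w x y z, kf_13 h w x z y, kf_34 h z x w y]; simp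

lemma kf_z34 (h : IsAlt A) (w x y : A) : kf w x y y = 0 := by
  simp [kf, asc_r h]

lemma kf_z12 (h : IsAlt A) (w y z : A) : kf w w y z = 0 := by
  rw [kf_pair h, kf_z34 h]

lemma kf_z23 (h : IsAlt A) (w x z : A) : kf w x x z = 0 := by
  have := kf_cyc h w x x z
  rw [kf_z34 h] at this
  exact neg_eq_zero.mp this.symm

lemma kf_comm (h : IsAlt A) (w x y z : A) :
    kf w x y z = asc (w * x - x * w) y z + asc (y * z - z * y) w x := by
  have hF := kf_F h w x y z
  have c1 : kf x y z w = - kf w x y z := by
    rw [kf_cyc h x y z w, neg_neg]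
  have c2 := kf_pair h w x y z
  have c3 := kf_12 h w x y z
  have c4 := kf_12 h y z w x
  rw [c1, ← c2] at hF
  have e1 : asc (w * x - x * w) y z = kf w x y z - kf x w y z
      - ((w * asc x y z - asc x y z * w) - (x * asc y z w - asc y z w * x)) := by
    rw [asc_sub1]; simp only [kf]; rw [cyc h w y z]; abel
  have e2 : asc (y * z - z * y) w x = kf y z w x - kf z y w x
      - ((y * asc z w x - asc z w x * y) - (z * asc w x y - asc w x y * z)) := by
    rw [asc_sub1]; simp only [kf]; rw [cyc h y w x]; abel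
  have c3' : kf x w y z = - kf w x y z := by rw [c3, neg_neg]
  have c4' : kf z y w x = - kf w x y z := by rw [c2, c4, neg_neg]
  rw [e1, e2, c3', c4', ← c2]
  have : (w * asc x y z - asc x y z * w) - (x * asc y z w - asc y z w * x) =
      kf w x y z - - kf w x y z + kf w x y z - (y * asc z w x - asc z w x * y)
        + (z * asc w x y - asc w x y * z) := by
    rw [hF]; abel
  rw [this]; abel

/-- `(wx, x, y) = x (w, x, y)` -/
lemma m1 (h : IsAlt A) (w x y : A) : asc (w * x) x y = x * asc w x y := by
  have := kf_z23 h w x y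
  simp only [kf, asc_l h, zero_mul, sub_zero] at this
  exact sub_eq_zero.mp this

/-- `(xw, x, y) = (w, x, y) x` -/
lemma m2 (h : IsAlt A) (w x y : A) : asc (x * w) x y = asc w x y * x := by
  have := kf_z23 h w x y
  rw [kf_12 h, neg_eq_zero] at this
  simp only [kf, asc_l h, mul_zero, sub_zero] at this
  exact sub_eq_zero.mp this

lemma d1 (h : IsAlt A) (w x y : A) : asc x y (w * x) = x * asc x y w := by
  rw [cyc' h x y (w * x), m1 h, cyc' h x y w]

lemma d2 (h : IsAlt A) (w x y : A) : asc x y (x * w) = asc x y w * x := by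
  rw [cyc' h x y (x * w), m2 h, cyc' h x y w]

lemma d3 (h : IsAlt A) (w x y : A) : asc x y (w * y) = y * asc x y w := by
  rw [s12 h x y (w * y), d1 h, s12 h x y w, mul_neg]

lemma d4 (h : IsAlt A) (w x y : A) : asc x y (y * w) = asc x y w * y := by
  rw [s12 h x y (y * w), d2 h, s12 h x y w, neg_mul]

lemma dprod (h : IsAlt A) (w z x y : A) :
    asc x y (w * z) = z * asc x y w + asc x y z * w + kf w z x y := by
  simp only [kf]
  rw [cyc' h x y (w * z), cyc' h x y w, cyc' h x y z]; abel

lemma asc_sub3 (x y a b : A) : asc x y (a - b) = asc x y a - asc x y b := by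
  simp only [asc, mul_sub]; abel

lemma k1 (h : IsAlt A) (x y z : A) : y * (x * asc x y z) = (x * y) * asc x y z := by
  have hw : ∀ w, asc w x (x * y) = asc x y w * x := by
    intro w
    rw [cyc' h w x (x * y), s23 h (x * y) w x, m2 h, s12 h y x w, neg_mul, neg_neg]
  have e1 : kf z (x * y) x y = - asc x y (asc x y z) := by
    rw [kf_pair h z (x * y) x y, kf_13 h x y z (x * y)]
    simp only [kf, hw, d3 h, asc_r h, zero_mul, sub_zero]
    rw [cyc h x y (asc x y z)]; rfl
  have e2 : asc x y (asc x y z) = asc x y ((z * x) * y) - asc x y (z * (x * y)) := by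
    rw [← asc_sub3, cyc' h x y z]; rfl
  rw [d3 h, d1 h, dprod h z (x * y), e1, d2 h, asc_r h, zero_mul, zero_mul] at e2
  have : y * (x * asc x y z) - (x * y) * asc x y z = 0 := by
    have e3 : y * (x * asc x y z) - (x * y) * asc x y z =
      (y * (x * asc x y z) - (x * y * asc x y z + 0 + -asc x y (asc x y z))) - asc x y (asc x y z) := by
      abel
    rw [e3, ← e2, sub_self]
  exact sub_eq_zero.mp this

lemma k2 (h : IsAlt A) (x y z : A) : (asc x y z * x) * y = asc x y z * (y * x) := by
  have hw : ∀ w, asc w x (y * x) = x * asc x y w := by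
    intro w
    rw [cyc' h w x (y * x), s23 h (y * x) w x, m1 h, s12 h y x w, mul_neg, neg_neg]
  have e1 : kf (y * x) z x y = - asc x y (asc x y z) := by
    rw [kf_14 h (y * x) z x y]
    simp only [kf, hw, d4 h, asc_r h, mul_zero, sub_zero]
    rw [s23 h x y (asc x y z), neg_neg, neg_sub]; rfl
  have e2 : asc x y (asc x y z) = asc x y (y * (x * z)) - asc x y ((y * x) * z) := by
    rw [← asc_sub3, s12 h x y z]; simp only [asc, neg_sub]
  rw [d4 h, d2 h, dprod h (y * x) z, e1, d1 h, asc_r h, mul_zero, mul_zero] at e2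
  have : (asc x y z * x) * y - asc x y z * (y * x) = 0 := by
    have e3 : (asc x y z * x) * y - asc x y z * (y * x) =
      ((asc x y z * x) * y - (0 + asc x y z * (y * x) + -asc x y (asc x y z))) - asc x y (asc x y z) := by
      abel
    rw [e3, ← e2, sub_self]
  exact sub_eq_zero.mp this

/-- `[x,y] ∘ (x,y,z) = 0` -/
lemma circ (h : IsAlt A) (x y z : A) :
    (x * y - y * x) * asc x y z + asc x y z * (x * y - y * x) = 0 := by
  have a1 := k1 h y x z
  rw [s12 h y x z] at a1
  simp only [mul_neg, neg_inj] at a1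
  have a2 := k2 h x y z
  have a3 := cyc' h x y (asc x y z)
  generalize asc x y z = a at *
  simp only [asc] at a3
  rw [a1, a2] at a3
  simp only [mul_sub, sub_mul]
  rw [a3]; abel

lemma sq_asc (h : IsAlt A) (a b c : A) : asc (a * a) b c = a * asc a b c + asc a b c * a := by
  have := kf_z12 h a b c
  simp only [kf] at this
  rw [← sub_eq_zero, ← this]; abel

lemma asc_add2 (x a b z : A) : asc x (a + b) z = asc x a z + asc x b z := by
  simp only [asc, mul_add, add_mul]; abel

lemma circ_comm (h : IsAlt A) (v x a : A) (c0 : v * a + a * v = 0) :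
    v * (x * a - a * x) + (x * a - a * x) * v = (v * x - x * v) * a + a * (v * x - x * v) := by
  have hav : a * v = - (v * a) := eq_neg_of_add_eq_zero_right c0
  have r1 : v * (x * a) = (v * x) * a - asc v x a := by simp [asc]
  have r2 : (x * a) * v = x * (a * v) + asc v x a := by rw [cyc h v x a]; simp [asc]
  have r3 : x * (v * a) = (x * v) * a + asc v x a := by rw [s12 h v x a]; simp [asc]
  have r4 : v * (a * x) = (v * a) * x + asc v x a := by rw [s23 h v x a]; simp [asc]
  have r5 : (a * v) * x = a * (v * x) + asc v x a := by rw [cyc' h v x a]; simp [asc]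
  have r6 : (a * x) * v = a * (x * v) - asc v x a := by rw [s13 h v x a]; simp [asc]
  have r7 : (v * a) * x = - (a * (v * x) + asc v x a) := by
    rw [← r5, hav, neg_mul, neg_neg]
  simp only [mul_sub, sub_mul]
  rw [r1, r2, r4, r6, r7, hav, mul_neg, r3]
  abel

lemma two_sq (h : IsAlt A) (x y t : A) :
    asc ((x * y - y * x) * (x * y - y * x)) x t + asc ((x * y - y * x) * (x * y - y * x)) x t = 0 := by
  have hv : asc (x * y - y * x) x t = x * asc x y t - asc x y t * x := by
    rw [asc_sub1, m1 h, m2 h, s12 h y x t]; simp only [mul_neg, neg_mul]; abel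
  have c0 := circ h x y t
  have c1 := circ h x (x * y - y * x) t
  have c2 := circ h x (y + (x * y - y * x)) t
  have e : x * (y + (x * y - y * x)) - (y + (x * y - y * x)) * x =
      (x * y - y * x) + (x * (x * y - y * x) - (x * y - y * x) * x) := by
    simp only [mul_add, add_mul]; abel
  rw [e, asc_add2] at c2
  rw [sq_asc h]
  have hs := s12 h x (x * y - y * x) t
  have f1 := circ_comm h _ x _ c0
  rw [← hv] at f1
  rw [hs] at c1 c2
  generalize x * y - y * x = v at *
  generalize asc x y t = a at *
  generalize asc v x t = p at *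
  have f2 : v * p + p * v = - ((v * x - x * v) * a + a * (v * x - x * v)) := by
    have : v * p + p * v + ((v * x - x * v) * a + a * (v * x - x * v)) =
        (v * a + a * v) + ((x * v - v * x) * -p + -p * (x * v - v * x)) -
          ((v + (x * v - v * x)) * (a + -p) + (a + -p) * (v + (x * v - v * x))) := by
      simp only [mul_add, add_mul, mul_sub, sub_mul, mul_neg, neg_mul]; abel
    rw [c0, c1, c2] at this
    exact eq_neg_of_add_eq_zero_left (by simpa using this)
  nth_rewrite 1 [f1]
  rw [f2, add_neg_cancel]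

def IsNuc (n : A) : Prop := ∀ r s : A, asc n r s = 0

lemma nuc_comm (h : IsAlt A) (g x : A) (hg : ∀ t, asc g x t = 0) : IsNuc (g * x - x * g) := by
  intro r s
  have h1 := kf_comm h g x r s
  have h2 : ∀ w, asc w g x = 0 := fun w => by rw [cyc h, hg]
  rw [h2, add_zero] at h1
  rw [← h1, kf_pair h]
  simp [kf, h2]

lemma IsNuc.l {n : A} (hn : IsNuc n) (x y : A) : (n * x) * y = n * (x * y) :=
  sub_eq_zero.mp (hn x y)

lemma IsNuc.m (h : IsAlt A) {n : A} (hn : IsNuc n) (x y : A) : (x * n) * y = x * (n * y) := by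
  have : asc x n y = 0 := by rw [s12 h, hn, neg_zero]
  exact sub_eq_zero.mp this

lemma IsNuc.r (h : IsAlt A) {n : A} (hn : IsNuc n) (x y : A) : (x * y) * n = x * (y * n) := by
  have : asc x y n = 0 := by rw [cyc' h, hn]
  exact sub_eq_zero.mp this

lemma IsNuc.a1 {n : A} (hn : IsNuc n) (x y z : A) : asc (n * x) y z = n * asc x y z := by
  have := teich n x y z
  simpa [hn _ _] using this

lemma IsNuc.kf0 (h : IsAlt A) {n : A} (hn : IsNuc n) (x y z : A) : kf n x y z = 0 := by
  have h2 : ∀ w u, asc w n u = 0 := fun w u => by rw [s12 h, hn, neg_zero]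
  rw [kf_pair h]; simp [kf, h2]

lemma IsNuc.a2 (h : IsAlt A) {n : A} (hn : IsNuc n) (x y z : A) :
    asc (n * x) y z = asc x y z * n := by
  have := hn.kf0 h x y z
  simp only [kf, hn _ _, mul_zero, sub_zero] at this
  exact sub_eq_zero.mp this

lemma IsNuc.a3 (h : IsAlt A) {n : A} (hn : IsNuc n) (x y z : A) :
    asc (x * n) y z = n * asc x y z := by
  have := hn.kf0 h x y z
  rw [kf_12 h, neg_eq_zero] at this
  simp only [kf, hn _ _, zero_mul, sub_zero] at this
  exact sub_eq_zero.mp this

/-- Nuclear elements annihilating all associators. -/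
def InU (k : A) : Prop := IsNuc k ∧ ∀ a b c : A, k * asc a b c = 0

lemma inU_comm (h : IsAlt A) {n m : A} (hn : IsNuc n) (hm : IsNuc m) : InU (n * m - m * n) := by
  refine ⟨fun r s => ?_, fun a b c => ?_⟩
  · rw [asc_sub1, hn.a1, hm.a1, hn, hm]; simp
  · have e1 : (n * m) * asc a b c = (m * n) * asc a b c := by
      rw [hn.l, ← hm.a1, ← hn.a1, hn.a2 h, hm.a1, hm.l, hm.l, ← hn.a2 h, hn.a1]
    rw [sub_mul, e1, sub_self]

lemma InU.mul_right {k : A} (hk : InU k) (x : A) : InU (k * x) := by
  refine ⟨fun r s => by rw [hk.1.a1, hk.2], fun a b c => ?_⟩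
  have t := teich x a b c
  have e : x * asc a b c = asc (x * a) b c - asc x (a * b) c + asc x a (b * c) - asc x a b * c := by
    rw [t]; abel
  rw [hk.1.l, e]
  simp only [mul_sub, mul_add, hk.2]
  rw [← hk.1.l, hk.2]; simp

lemma InU.mul_left (h : IsAlt A) {k : A} (hk : InU k) (x : A) : InU (x * k) := by
  refine ⟨fun r s => by rw [hk.1.a3 h, hk.2], fun a b c => ?_⟩
  rw [hk.1.m h, hk.2, mul_zero]

/-- the element `[[x,y]^2, x]` -/
def nel {B : Type*} [Mul B] [Sub B] (x y : B) : B :=
  ((x * y - y * x) * (x * y - y * x)) * x - x * ((x * y - y * x) * (x * y - y * x))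

/-- the commutator of two such elements -/
def kel {B : Type*} [Mul B] [Sub B] (x y z w : B) : B := nel x y * nel z w - nel z w * nel x y

lemma nel_nuc (h : IsAlt A) (h2 : ∀ a : A, a + a = 0 → a = 0) (x y : A) : IsNuc (nel x y) :=
  nuc_comm h _ x (fun t => h2 _ (two_sq h x y t))

lemma kel_inU (h : IsAlt A) (h2 : ∀ a : A, a + a = 0 → a = 0) (x y z w : A) : InU (kel x y z w) :=
  inU_comm h (nel_nuc h h2 x y) (nel_nuc h h2 z w)

end Pool.Agent.H212Z.Alt
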