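import Pool.Agent.H212Z.AltId

set_option autoImplicit false

/-!
The square of the nuclear ideal of the free alternative algebra meets the associator ideal in zero.
-/

namespace Pool.Agent.H212Z.Alt

variable {F : Type} [Field F]

/-- The algebra on a vector space given by a bilinear map. -/
def BA {V : Type} [AddCommGroup V] [Module F V] (_B : V →ₗ[F] V →ₗ[F] V) : Type := V

section BA
variable {V : Type} [AddCommGroup V] [Module F V] (B : V →ₗ[F] V →ₗ[F] V)

instance : AddCommGroup (BA B) := inferInstanceAs (AddCommGroup V)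
instance : Module F (BA B) := inferInstanceAs (Module F V)

instance : NonUnitalNonAssocRing (BA B) where
  mul a b := B a b
  left_distrib a b c := (B a).map_add b c
  right_distrib a b c := LinearMap.map_add₂ B a b c
  zero_mul a := LinearMap.map_zero₂ B a
  mul_zero a := (B a).map_zero

instance : IsScalarTower F (BA B) (BA B) := ⟨fun c a b => LinearMap.map_smul₂ B c a b⟩
instance : SMulCommClass F (BA B) (BA B) := ⟨fun c a b => ((B a).map_smul c b).symm⟩

lemma BA_mul (a b : BA B) : a * b = B a b := rfl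

end BA

lemma exists_quot {A : Type} [NonUnitalNonAssocRing A] [Module F A] [IsScalarTower F A A]
    [SMulCommClass F A A] (I : Submodule F A) (hl : ∀ a, ∀ x ∈ I, a * x ∈ I)
    (hr : ∀ a, ∀ x ∈ I, x * a ∈ I) :
    ∃ (B : Type) (_ : NonUnitalNonAssocRing B) (_ : Module F B) (_ : IsScalarTower F B B)
      (_ : SMulCommClass F B B) (π : A →ₙₐ[F] B),
      Function.Surjective π ∧ ∀ a, π a = 0 ↔ a ∈ I := by
  let m : A →ₗ[F] A →ₗ[F] (A ⧸ I) := (LinearMap.mul F A).compr₂ I.mkQ
  have h1 : I ≤ LinearMap.ker m := by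
    intro x hx
    ext a
    simpa [m] using hr a x hx
  have h2 : I ≤ LinearMap.ker m.flip := by
    intro x hx
    ext a
    simpa [m] using hl a x hx
  let B := LinearMap.liftQ₂ I I m h1 h2
  let π : A →ₙₐ[F] BA B :=
    { toFun := fun a => (I.mkQ a : A ⧸ I)
      map_smul' := fun c a => I.mkQ.map_smul c a
      map_zero' := I.mkQ.map_zero
      map_add' := fun a b => I.mkQ.map_add a b
      map_mul' := fun a b => rfl }
  exact ⟨BA B, inferInstance, inferInstance, inferInstance, inferInstance, π,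
    I.mkQ_surjective, fun a => Submodule.Quotient.mk_eq_zero I⟩

lemma free_ind {P : FreeNonUnitalNonAssocAlgebra F ℕ → Prop}
    (hof : ∀ i, P (FreeNonUnitalNonAssocAlgebra.of F i)) (h0 : P 0)
    (hadd : ∀ a b, P a → P b → P (a + b)) (hsmul : ∀ (c : F) a, P a → P (c • a))
    (hmul : ∀ a b, P a → P b → P (a * b)) (g : FreeNonUnitalNonAssocAlgebra F ℕ) : P g := by
  let S : NonUnitalSubalgebra F (FreeNonUnitalNonAssocAlgebra F ℕ) :=
    { carrier := {x | P x}
      add_mem' := fun {a b} => hadd a b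
      zero_mem' := h0
      mul_mem' := fun {a b} => hmul a b
      smul_mem' := fun c a => hsmul c a }
  let φ : ℕ → S := fun i => ⟨_, hof i⟩
  have : (NonUnitalSubalgebraClass.subtype S).comp (FreeNonUnitalNonAssocAlgebra.lift F φ) =
      NonUnitalAlgHom.id F _ := by
    apply FreeNonUnitalNonAssocAlgebra.hom_ext
    intro i
    simp [φ]
  have h := DFunLike.congr_fun this g
  have h' : ((FreeNonUnitalNonAssocAlgebra.lift F φ g : S) : FreeNonUnitalNonAssocAlgebra F ℕ) = g := h
  rw [← h']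
  exact (FreeNonUnitalNonAssocAlgebra.lift F φ g).2

/-- Left ideals of the free associative algebra are projective, in explicit form. -/
lemma exists_section {M : Type} [AddCommGroup M] [Module F M]
    (lam : FreeAlgebra F ℕ →ₐ[F] Module.End F M) (p : M →ₗ[F] FreeAlgebra F ℕ)
    (hp : ∀ r m, p (lam r m) = r * p m) :
    ∃ S : FreeAlgebra F ℕ →ₗ[F] M, (∀ m, p (S (p m)) = p m) ∧
      ∀ r m, S (r * p m) = lam r (S (p m)) := by
  obtain ⟨t, ht⟩ := p.rangeRestrict.exists_rightInverse_of_surjective (LinearMap.range_rangeRestrict p)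
  obtain ⟨q, hq⟩ := (LinearMap.range p).subtype.exists_leftInverse_of_injective
    (Submodule.ker_subtype _)
  let τ : FreeAlgebra F ℕ →ₗ[F] M := t.comp q
  have hτ : ∀ m, p (τ (p m)) = p m := by
    intro m
    have h1 : q (p m) = ⟨p m, LinearMap.mem_range_self p m⟩ :=
      DFunLike.congr_fun hq (⟨p m, LinearMap.mem_range_self p m⟩ : LinearMap.range p)
    have h2 := DFunLike.congr_fun ht (⟨p m, LinearMap.mem_range_self p m⟩ : LinearMap.range p)
    have h3 := congrArg Subtype.val h2
    simpa [τ, h1] using h3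
  let T : ℕ → Module.End F (FreeAlgebra F ℕ × M) := fun i =>
    LinearMap.prod ((LinearMap.mulLeft F (FreeAlgebra.ι F i)).comp (LinearMap.fst F _ _))
      ((lam (FreeAlgebra.ι F i)).comp (LinearMap.snd F _ _) +
        τ.comp ((LinearMap.mulLeft F (FreeAlgebra.ι F i)).comp
          ((LinearMap.id - p.comp τ).comp (LinearMap.fst F _ _))))
  have hT : ∀ i r m, T i (r, m) = (FreeAlgebra.ι F i * r,
      lam (FreeAlgebra.ι F i) m + τ (FreeAlgebra.ι F i * (r - p (τ r)))) := fun i r m => rfl
  let Φ := FreeAlgebra.lift F T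
  have c1 : ∀ a : FreeAlgebra F ℕ, ∀ r m, p m = p (τ r) →
      (Φ a (r, m)).1 = a * r ∧ p (Φ a (r, m)).2 = p (τ (a * r)) := by
    intro a
    induction a using FreeAlgebra.induction with
    | grade0 c =>
      intro r m h
      simp [Algebra.algebraMap_eq_smul_one, h]
    | grade1 i =>
      intro r m h
      simp only [Φ, FreeAlgebra.lift_ι_apply, hT, map_add, hp, true_and, h]
      rw [← hp, ← hτ (lam _ _), hp, ← map_add, ← map_add]
      congr 2
      noncomm_ring
    | mul a b ha hb =>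
      intro r m h
      obtain ⟨h1, h2⟩ := hb r m h
      have e : Φ b (r, m) = (b * r, (Φ b (r, m)).2) := Prod.ext h1 rfl
      rw [map_mul, Module.End.mul_apply, e, mul_assoc]
      exact ha _ _ h2
    | add a b ha hb =>
      intro r m h
      obtain ⟨h1, h2⟩ := ha r m h
      obtain ⟨h3, h4⟩ := hb r m h
      simp [h1, h2, h3, h4, add_mul]
  have c2 : ∀ a : FreeAlgebra F ℕ, ∀ m' m, Φ a (p m', m) = (a * p m', lam a m) := by
    intro a
    induction a using FreeAlgebra.induction with
    | grade0 c =>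
      intro m' m
      simp [Algebra.algebraMap_eq_smul_one]
    | grade1 i =>
      intro m' m
      simp only [Φ, FreeAlgebra.lift_ι_apply, hT, hτ, sub_self, mul_zero, map_zero, add_zero]
    | mul a b ha hb =>
      intro m' m
      rw [map_mul, Module.End.mul_apply, hb, ← hp, ha, hp, mul_assoc, map_mul, Module.End.mul_apply]
    | add a b ha hb =>
      intro m' m
      simp [ha, hb, add_mul]
  let S : FreeAlgebra F ℕ →ₗ[F] M :=
    (LinearMap.snd F _ _).comp ((LinearMap.applyₗ ((1 : FreeAlgebra F ℕ), τ 1)).comp Φ.toLinearMap)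
  have hS : ∀ a, S a = (Φ a (1, τ 1)).2 := fun a => rfl
  refine ⟨S, fun m => ?_, fun r m => ?_⟩
  · rw [hS, (c1 (p m) 1 (τ 1) rfl).2, mul_one, hτ]
  · have e : Φ (p m) (1, τ 1) = (p m, S (p m)) :=
      Prod.ext (by rw [(c1 (p m) 1 (τ 1) rfl).1, mul_one]) rfl
    rw [hS, map_mul, Module.End.mul_apply, e, c2]

section Main
variable {E : Type} [NonUnitalNonAssocRing E] [Module F E] [IsScalarTower F E E]
  [SMulCommClass F E E]

/-- the nuclear ideal as a subspace -/
def Usub (F : Type) [Field F] (E : Type) [NonUnitalNonAssocRing E] [Module F E]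
    [IsScalarTower F E E] : Submodule F E where
  carrier := {k | InU k}
  add_mem' := by
    rintro a b ⟨ha, ha'⟩ ⟨hb, hb'⟩
    refine ⟨fun r s => ?_, fun x y z => by rw [add_mul, ha', hb', add_zero]⟩
    have : asc (a + b) r s = asc a r s + asc b r s := by simp only [asc, add_mul]; abel
    rw [this, ha, hb, add_zero]
  zero_mem' := ⟨fun r s => by simp [asc], fun x y z => zero_mul _⟩
  smul_mem' := by
    rintro c a ⟨ha, ha'⟩
    refine ⟨fun r s => ?_, fun x y z => by rw [smul_mul_assoc, ha', smul_zero]⟩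
    have : asc (c • a) r s = c • asc a r s := by simp only [asc, smul_mul_assoc, smul_sub]
    rw [this, ha, smul_zero]

/-- the square of the nuclear ideal -/
def Usq (F : Type) [Field F] (E : Type) [NonUnitalNonAssocRing E] [Module F E] : Submodule F E :=
  Submodule.span F {x | ∃ u v : E, InU u ∧ InU v ∧ x = u * v}

omit [IsScalarTower F E E] in
lemma Usq_left (h : IsAlt E) (a : E) : ∀ x ∈ Usq F E, a * x ∈ Usq F E := by
  intro x hx
  induction hx using Submodule.span_induction with
  | mem x hx =>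
    obtain ⟨u, v, hu, hv, rfl⟩ := hx
    exact Submodule.subset_span ⟨a * u, v, hu.mul_left h a, hv, (hu.1.m h a v).symm⟩
  | zero => simp
  | add x y _ _ hx hy => rw [mul_add]; exact add_mem hx hy
  | smul c x _ hx => rw [mul_smul_comm]; exact Submodule.smul_mem _ _ hx

omit [SMulCommClass F E E] in
lemma Usq_right (a : E) : ∀ x ∈ Usq F E, x * a ∈ Usq F E := by
  intro x hx
  induction hx using Submodule.span_induction with
  | mem x hx =>
    obtain ⟨u, v, hu, hv, rfl⟩ := hx
    exact Submodule.subset_span ⟨u, v * a, hu, hv.mul_right a, hu.1.l v a⟩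
  | zero => simp
  | add x y _ _ hx hy => rw [add_mul]; exact add_mem hx hy
  | smul c x _ hx => rw [smul_mul_assoc]; exact Submodule.smul_mem _ _ hx

/-- left multiplication on `U` -/
def Lm (h : IsAlt E) (e : E) : Module.End F (Usub F E) :=
  (LinearMap.mulLeft F e).restrict (fun _ hu => InU.mul_left h hu e)

/-- right multiplication on `U` -/
def Rm (e : E) : Module.End F (Usub F E) :=
  (LinearMap.mulRight F e).restrict (fun _ hu => InU.mul_right hu e)

lemma key (h : IsAlt E) (π : FreeNonUnitalNonAssocAlgebra F ℕ →ₙₐ[F] E)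
    (hπ : Function.Surjective π)
    (hq : ∀ g, π g = 0 → FreeNonUnitalNonAssocAlgebra.lift F (FreeAlgebra.ι F) g = 0)
    (f : FreeNonUnitalNonAssocAlgebra F ℕ) (hf : π f ∈ Usq F E)
    (hf' : FreeNonUnitalNonAssocAlgebra.lift F (FreeAlgebra.ι F) f = 0) : π f = 0 := by
  set q := FreeNonUnitalNonAssocAlgebra.lift F (FreeAlgebra.ι F : ℕ → FreeAlgebra F ℕ) with hqdef
  let πl : FreeNonUnitalNonAssocAlgebra F ℕ →ₗ[F] E :=
    { toFun := π, map_add' := map_add π, map_smul' := map_smul π }
  let ql : FreeNonUnitalNonAssocAlgebra F ℕ →ₗ[F] FreeAlgebra F ℕ :=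
    { toFun := q, map_add' := map_add q, map_smul' := map_smul q }
  obtain ⟨σ, hσ⟩ := πl.exists_rightInverse_of_surjective (LinearMap.range_eq_top.mpr hπ)
  let p : E →ₗ[F] FreeAlgebra F ℕ := ql.comp σ
  have hp : ∀ g, p (π g) = q g := by
    intro g
    have h1 : π (σ (π g)) = π g := DFunLike.congr_fun hσ (π g)
    have h2 : q (σ (π g) - g) = 0 := hq _ (by rw [map_sub, h1, sub_self])
    rw [map_sub, sub_eq_zero] at h2
    exact h2
  let lam : FreeAlgebra F ℕ →ₐ[F] Module.End F (Usub F E) :=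
    FreeAlgebra.lift F (fun i => Lm h (π (FreeNonUnitalNonAssocAlgebra.of F i)))
  let rho : FreeAlgebra F ℕ →ₐ[F] (Module.End F (Usub F E))ᵐᵒᵖ :=
    FreeAlgebra.lift F (fun i => MulOpposite.op (Rm (π (FreeNonUnitalNonAssocAlgebra.of F i))))
  have hlam : ∀ g, ∀ u : Usub F E, (lam (q g) u : E) = π g * u := by
    intro g
    induction g using free_ind with
    | hof i => intro u; simp [hqdef, lam]; rfl
    | h0 => intro u; simp
    | hadd a b ha hb => intro u; simp [ha, hb, add_mul]
    | hsmul c a ha => intro u; simp [ha, smul_mul_assoc]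
    | hmul a b ha hb =>
      intro u
      rw [map_mul, map_mul, Module.End.mul_apply, ha, hb, map_mul, u.2.1.r h]
  have hrho : ∀ g, ∀ u : Usub F E, ((rho (q g)).unop u : E) = u * π g := by
    intro g
    induction g using free_ind with
    | hof i => intro u; simp [hqdef, rho]; rfl
    | h0 => intro u; simp
    | hadd a b ha hb => intro u; simp [ha, hb, mul_add]
    | hsmul c a ha => intro u; simp [ha, mul_smul_comm]
    | hmul a b ha hb =>
      intro u
      rw [map_mul, map_mul, MulOpposite.unop_mul, Module.End.mul_apply, hb, ha, map_mul, u.2.1.l]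
  have hlam' : ∀ e, ∀ u : Usub F E, (lam (p e) u : E) = e * u := by
    intro e u
    obtain ⟨g, rfl⟩ := hπ e
    rw [hp, hlam]
  have hrho' : ∀ e, p e = 0 → ∀ u : Usub F E, (u : E) * e = 0 := by
    intro e he u
    obtain ⟨g, rfl⟩ := hπ e
    rw [hp] at he
    rw [← hrho, he]; simp
  have pmul : ∀ a b, p (a * b) = p a * p b := by
    intro a b
    obtain ⟨a, rfl⟩ := hπ a
    obtain ⟨b, rfl⟩ := hπ b
    rw [← map_mul, hp, hp, hp, map_mul]
  let pU : Usub F E →ₗ[F] FreeAlgebra F ℕ := p.comp (Usub F E).subtype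
  have hpU : ∀ r m, pU (lam r m) = r * pU m := by
    intro r
    induction r using FreeAlgebra.induction with
    | grade0 c => intro m; simp [Algebra.algebraMap_eq_smul_one]
    | grade1 i =>
      intro m
      have e : FreeAlgebra.ι F i = q (FreeNonUnitalNonAssocAlgebra.of F i) := by simp [hqdef]
      show p (lam _ m : E) = _ * p m
      rw [e, hlam, pmul, hp]
    | mul a b ha hb => intro m; rw [map_mul, Module.End.mul_apply, ha, hb, mul_assoc]
    | add a b ha hb => intro m; simp [ha, hb, add_mul]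
  obtain ⟨S, hS1, hS2⟩ := exists_section lam pU hpU
  have main : ∀ x ∈ Usq F E, (S (p x) : E) = x := by
    intro x hx
    induction hx using Submodule.span_induction with
    | mem x hx =>
      obtain ⟨u, v, hu, hv, rfl⟩ := hx
      have e1 := hS2 (p u) ⟨v, hv⟩
      have e2 : p (S (p v) : E) = p v := hS1 ⟨v, hv⟩
      have e3 : u * ((S (p v) : E) - v) = 0 :=
        hrho' _ (by rw [map_sub, e2, sub_self]) ⟨u, hu⟩
      rw [mul_sub, sub_eq_zero] at e3
      rw [pmul]
      change S (p u * p v) = lam (p u) (S (p v)) at e1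
      rw [e1, hlam', e3]
    | zero => simp
    | add x y _ _ hx hy => simp [hx, hy]
    | smul c x _ hx => simp [hx]
  have := main _ hf
  rw [hp, hf'] at this
  rw [← this]; simp

end Main

lemma map_kel {A B : Type} [NonUnitalNonAssocRing A] [Module F A] [NonUnitalNonAssocRing B]
    [Module F B] (π : A →ₙₐ[F] B) (x y z w : A) :
    π (kel x y z w) = kel (π x) (π y) (π z) (π w) := by
  simp only [kel, nel, map_sub, map_mul]

lemma two_cancel [CharZero F] {A : Type} [AddCommGroup A] [Module F A] (a : A) (h : a + a = 0) :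
    a = 0 := by
  have : (2 : F) • a = 0 := by rw [two_smul]; exact h
  exact (smul_eq_zero.mp this).resolve_left two_ne_zero

/-- the associator of the first three generators -/
noncomputable def sOne (F : Type) [Field F] : FreeNonUnitalNonAssocAlgebra F ℕ :=
  asc (FreeNonUnitalNonAssocAlgebra.of F 0) (FreeNonUnitalNonAssocAlgebra.of F 1)
    (FreeNonUnitalNonAssocAlgebra.of F 2)

/-- the square of the element `kel` of the first four generators -/
noncomputable def sTwo (F : Type) [Field F] : FreeNonUnitalNonAssocAlgebra F ℕ :=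
  kel (FreeNonUnitalNonAssocAlgebra.of F 0) (FreeNonUnitalNonAssocAlgebra.of F 1)
    (FreeNonUnitalNonAssocAlgebra.of F 2) (FreeNonUnitalNonAssocAlgebra.of F 3) *
  kel (FreeNonUnitalNonAssocAlgebra.of F 0) (FreeNonUnitalNonAssocAlgebra.of F 1)
    (FreeNonUnitalNonAssocAlgebra.of F 2) (FreeNonUnitalNonAssocAlgebra.of F 3)

section Ev
variable {A : Type} [NonUnitalNonAssocRing A] [Module F A] [IsScalarTower F A A]
  [SMulCommClass F A A]

lemma ev_one (φ : ℕ → A) :
    FreeNonUnitalNonAssocAlgebra.lift F φ (sOne F) = asc (φ 0) (φ 1) (φ 2) := by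
  simp only [sOne, asc, map_sub, map_mul, FreeNonUnitalNonAssocAlgebra.lift_of_apply]

lemma ev_two (φ : ℕ → A) :
    FreeNonUnitalNonAssocAlgebra.lift F φ (sTwo F) =
      kel (φ 0) (φ 1) (φ 2) (φ 3) * kel (φ 0) (φ 1) (φ 2) (φ 3) := by
  simp only [sTwo, map_mul, map_kel, FreeNonUnitalNonAssocAlgebra.lift_of_apply]

end Ev

/-- A seven-dimensional alternative algebra that is not associative. -/
def crossB (F : Type) [Field F] :
    ((Fin 3 → F) × (Fin 3 → F) × F) →ₗ[F] ((Fin 3 → F) × (Fin 3 → F) × F) →ₗ[F]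
      ((Fin 3 → F) × (Fin 3 → F) × F) :=
  LinearMap.mk₂ F (fun a b => (0, crossProduct a.1 b.1, a.2.1 ⬝ᵥ b.1))
    (fun a a' b => by simp) (fun c a b => by simp) (fun a b b' => by simp) (fun c a b => by simp)

lemma crossB_apply (a b : (Fin 3 → F) × (Fin 3 → F) × F) :
    crossB F a b = (0, crossProduct a.1 b.1, a.2.1 ⬝ᵥ b.1) := rfl

lemma ex_one : ∃ (A : Type) (_ : NonUnitalNonAssocRing A) (_ : Module F A)
    (_ : IsScalarTower F A A) (_ : SMulCommClass F A A), IsAlt A ∧
    ∃ φ : ℕ → A, FreeNonUnitalNonAssocAlgebra.lift F φ (sOne F) ≠ 0 := by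
  refine ⟨BA (crossB F), inferInstance, inferInstance, inferInstance, inferInstance, ?_, ?_⟩
  · intro x y
    constructor
    · show crossB F (crossB F x x) y = crossB F x (crossB F x y)
      simp [crossB_apply]
    · show crossB F (crossB F y x) x = crossB F y (crossB F x x)
      simp [crossB_apply, dotProduct_comm]
  · let e : ℕ → (Fin 3 → F) × (Fin 3 → F) × F := fun n =>
      (if n = 0 then ![1, 0, 0] else if n = 1 then ![0, 1, 0] else ![0, 0, 1], 0, 0)
    refine ⟨e, ?_⟩
    rw [ev_one]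
    intro h
    have h' : crossB F (crossB F (e 0) (e 1)) (e 2) - crossB F (e 0) (crossB F (e 1) (e 2)) = 0 := h
    have := congrArg (fun t : (Fin 3 → F) × (Fin 3 → F) × F => t.2.2) h'
    simp [crossB_apply, e, crossProduct] at this

lemma ex_two : ∃ (A : Type) (_ : NonUnitalNonAssocRing A) (_ : Module F A)
    (_ : IsScalarTower F A A) (_ : SMulCommClass F A A), IsAlt A ∧
    ∃ φ : ℕ → A, FreeNonUnitalNonAssocAlgebra.lift F φ (sTwo F) ≠ 0 := by
  refine ⟨Matrix (Fin 3) (Fin 3) F, inferInstance, inferInstance, inferInstance, inferInstance,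
    fun x y => ⟨mul_assoc _ _ _, mul_assoc _ _ _⟩, ?_⟩
  let e : ℕ → Matrix (Fin 3) (Fin 3) F := fun n =>
    if n = 0 then !![0, 0, 1; 0, 0, 0; 0, 1, 0] else if n = 1 then !![0, 0, 0; 0, 0, 0; 1, 0, 0]
    else if n = 2 then !![0, 1, 0; 0, 0, 1; 0, 0, 0] else !![1, 0, 0; 1, 0, 0; 0, 0, 0]
  refine ⟨e, ?_⟩
  rw [ev_two]
  have v1 : e 0 * e 1 - e 1 * e 0 = !![1, 0, 0; 0, 0, 0; 0, 0, -1] := by
    ext i j; fin_cases i <;> fin_cases j <;> simp [e]
  have v2 : e 2 * e 3 - e 3 * e 2 = !![1, -1, 0; 0, -1, 0; 0, 0, 0] := by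
    ext i j; fin_cases i <;> fin_cases j <;> simp [e]
  have n1 : nel (e 0) (e 1) = !![0, 0, 0; 0, 0, 0; 0, 1, 0] := by
    rw [nel, v1]
    ext i j; fin_cases i <;> fin_cases j <;> simp [e]
  have n2 : nel (e 2) (e 3) = !![0, 0, 0; 0, 0, 1; 0, 0, 0] := by
    rw [nel, v2]
    ext i j; fin_cases i <;> fin_cases j <;> simp [e]
  have k : kel (e 0) (e 1) (e 2) (e 3) = !![0, 0, 0; 0, -1, 0; 0, 0, 1] := by
    rw [kel, n1, n2]
    ext i j; fin_cases i <;> fin_cases j <;> simp
  rw [k]
  intro h
  have := congrFun (congrFun h 2) 2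
  simp at this

theorem decomp [CharZero F] (f : FreeNonUnitalNonAssocAlgebra F ℕ)
    (H1 : ∀ (A : Type) [NonUnitalNonAssocRing A] [Module F A] [IsScalarTower F A A]
      [SMulCommClass F A A], IsAlt A →
      (∀ φ : ℕ → A, FreeNonUnitalNonAssocAlgebra.lift F φ (sOne F) = 0) →
      ∀ φ : ℕ → A, FreeNonUnitalNonAssocAlgebra.lift F φ f = 0)
    (H2 : ∀ (A : Type) [NonUnitalNonAssocRing A] [Module F A] [IsScalarTower F A A]
      [SMulCommClass F A A], IsAlt A →
      (∀ φ : ℕ → A, FreeNonUnitalNonAssocAlgebra.lift F φ (sTwo F) = 0) →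
      ∀ φ : ℕ → A, FreeNonUnitalNonAssocAlgebra.lift F φ f = 0)
    (A : Type) [NonUnitalNonAssocRing A] [Module F A] [IsScalarTower F A A]
    [SMulCommClass F A A] (hA : IsAlt A) (φ : ℕ → A) :
    FreeNonUnitalNonAssocAlgebra.lift F φ f = 0 := by
  let J : Submodule F (FreeNonUnitalNonAssocAlgebra F ℕ) :=
    { carrier := {g | ∀ (A : Type) [NonUnitalNonAssocRing A] [Module F A] [IsScalarTower F A A]
        [SMulCommClass F A A], IsAlt A → ∀ φ : ℕ → A, FreeNonUnitalNonAssocAlgebra.lift F φ g = 0}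
      add_mem' := fun {a b} ha hb A _ _ _ _ hA φ => by rw [map_add, ha A hA, hb A hA, add_zero]
      zero_mem' := fun A _ _ _ _ _ φ => map_zero _
      smul_mem' := fun c a ha A _ _ _ _ hA φ => by rw [map_smul, ha A hA, smul_zero] }
  obtain ⟨E, _, _, _, _, π, hπ, hker⟩ := exists_quot J
    (fun a x hx A _ _ _ _ hA φ => by rw [map_mul, hx A hA, mul_zero])
    (fun a x hx A _ _ _ _ hA φ => by rw [map_mul, hx A hA, zero_mul])
  have hE : IsAlt E := by
    intro x y
    obtain ⟨x, rfl⟩ := hπ x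
    obtain ⟨y, rfl⟩ := hπ y
    constructor
    · rw [← sub_eq_zero]
      have : π (x * x * y - x * (x * y)) = 0 := (hker _).mpr (fun A _ _ _ _ hA φ => by
        simp only [map_sub, map_mul, (hA _ _).1, sub_self])
      simpa only [map_sub, map_mul] using this
    · rw [← sub_eq_zero]
      have : π (y * x * x - y * (x * x)) = 0 := (hker _).mpr (fun A _ _ _ _ hA φ => by
        simp only [map_sub, map_mul, (hA _ _).2, sub_self])
      simpa only [map_sub, map_mul] using this
  have hR : IsAlt (FreeAlgebra F ℕ) := fun x y => ⟨mul_assoc _ _ _, mul_assoc _ _ _⟩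
  obtain ⟨B, _, _, _, _, κ, hκ, hker'⟩ := exists_quot (Usq F E) (Usq_left hE) Usq_right
  have hB : IsAlt B := by
    intro x y
    obtain ⟨x, rfl⟩ := hκ x
    obtain ⟨y, rfl⟩ := hκ y
    simp only [← map_mul, (hE x y).1, (hE x y).2, and_self]
  have hB2 : ∀ ψ : ℕ → B, FreeNonUnitalNonAssocAlgebra.lift F ψ (sTwo F) = 0 := by
    intro ψ
    choose ψ' hψ' using fun i => hκ (ψ i)
    rw [ev_two, ← hψ' 0, ← hψ' 1, ← hψ' 2, ← hψ' 3, ← map_kel, ← map_mul, hker']
    have hk := kel_inU hE (two_cancel (F := F)) (ψ' 0) (ψ' 1) (ψ' 2) (ψ' 3)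
    exact Submodule.subset_span ⟨_, _, hk, hk, rfl⟩
  have h2 := H2 B hB hB2 ((κ.comp π) ∘ FreeNonUnitalNonAssocAlgebra.of F)
  rw [FreeNonUnitalNonAssocAlgebra.lift_comp_of] at h2
  have h2' : π f ∈ Usq F E := (hker' _).mp h2
  have h1 := H1 (FreeAlgebra F ℕ) hR (fun ψ => by rw [ev_one, asc, mul_assoc, sub_self])
    (FreeAlgebra.ι F)
  have := key hE π hπ (fun g hg => (hker g).mp hg _ hR _) f h2' h1
  exact (hker f).mp this A hA φ

end Pool.Agent.H212Z.Alt
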